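import Pool.Agent.LE.StmtsQ

/-!
# SBP: summation by parts on the lattice
-/

set_option autoImplicit false

open MeasureTheory ProbabilityTheory Function Filter

open scoped ENNReal BigOperators Topology NNReal

noncomputable section

namespace Pool.Agent.LE.CL.H82

open Pool.Agent.Anderson Pool.Agent.Loc Pool.Agent.Mob Pool.Agent.Helper54.Bal
  Pool.Agent.Helper96.EXP Pool.Agent.BED Pool.Agent.LE.CL

variable {d : ℕ}

theorem mem_box_succ {b x v : Site d} {r : ℕ} (hv : ∀ i, |v i| ≤ 1) (hx : x ∈ box b r) :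
    x - v ∈ box b (r + 1) := by
  rw [mem_box, sd_le_iff] at *
  intro i
  have h1 := hx i
  have h2 := hv i
  have h3 : b i - (x - v) i = (b i - x i) + v i := by
    simp only [Pi.sub_apply]
    ring
  rw [h3]
  push_cast
  exact (abs_add_le _ _).trans (add_le_add h1 h2)

theorem single_abs (i : Fin d) (c : ℤ) (hc : |c| ≤ 1) : ∀ j, |(Pi.single i c : Site d) j| ≤ 1 := by
  intro j
  by_cases h : j = i
  · subst h
    simpa using hc
  · simp [Pi.single_apply, h]

/-- the sum of the shift of a function with support in `box b r` -/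
theorem sum_shift (G : Site d → ℝ) (b v : Site d) (r : ℕ) (hv : ∀ i, |v i| ≤ 1)
    (hG : ∀ x, x ∉ box b r → G x = 0) :
    ∑ x ∈ box b (r + 1), G (x + v) = ∑ x ∈ box b r, G x := by
  refine Finset.sum_bij_ne_zero (fun a _ _ => a + v) ?_ ?_ ?_ ?_
  · intro a _ h
    by_contra hc
    exact h (hG _ hc)
  · intro a _ _ a' _ _ h
    exact add_right_cancel h
  · intro x hx hne
    refine ⟨x - v, mem_box_succ hv hx, ?_, ?_⟩
    · simpa using hne
    · simp
  · intro a _ _
    rfl

theorem sbp : SbpStmt := by
  intro d F b r hF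
  have e1 : ∀ i : Fin d, ∀ j, |(Pi.single i (1 : ℤ) : Site d) j| ≤ 1 := fun i =>
    single_abs i 1 (by norm_num)
  have e2 : ∀ i : Fin d, ∀ j, |(-(Pi.single i (1 : ℤ)) : Site d) j| ≤ 1 := by
    intro i j
    rw [Pi.neg_apply, abs_neg]
    exact e1 i j
  -- the two basic identities, in the direction `i`
  have A : ∀ i : Fin d, ∑ x ∈ box b (r + 1), F x (x + Pi.single i 1) =
      ∑ x ∈ box b r, F x (x + Pi.single i 1) := by
    intro i
    refine (Finset.sum_subset (box_mono b (Nat.le_succ r)) ?_).symm
    intro x _ hx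
    exact hF x hx _
  have B : ∀ i : Fin d, ∑ x ∈ box b (r + 1), F (x + Pi.single i 1) x =
      ∑ x ∈ box b r, F x (x - Pi.single i 1) := by
    intro i
    have h := sum_shift (fun x => F x (x - Pi.single i 1)) b (Pi.single i 1) r (e1 i)
      (fun x hx => hF x hx _)
    rw [← h]
    refine Finset.sum_congr rfl fun x _ => ?_
    simp
  have C : ∀ i : Fin d, ∑ y ∈ box b (r + 1), F (y - Pi.single i 1) y =
      ∑ x ∈ box b r, F x (x + Pi.single i 1) := by
    intro i
    have h := sum_shift (fun x => F x (x + Pi.single i 1)) b (-(Pi.single i 1)) r (e2 i)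
      (fun x hx => hF x hx _)
    rw [← h]
    refine Finset.sum_congr rfl fun x _ => ?_
    simp [sub_eq_add_neg]
  constructor
  · rw [Finset.sum_comm, Finset.sum_comm (s := box b (r + 1))]
    refine Finset.sum_congr rfl fun i _ => ?_
    rw [Finset.sum_add_distrib, Finset.sum_add_distrib, A i, B i]
  · rw [Finset.sum_comm, Finset.sum_comm (s := box b (r + 1))]
    refine Finset.sum_congr rfl fun i _ => ?_
    rw [Finset.sum_add_distrib, Finset.sum_add_distrib, A i, C i, add_comm]

end Pool.Agent.LE.CL.H82
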